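import Pool.Agent.Y224.AZ.Stm

/-!
# Logarithms preserve stable subspaces, and commute there if powers commute there
-/

set_option autoImplicit false

namespace Pool.Agent.Y328.AZ

open Module Pool.Agent.Y224.AZ

section

variable {K Y : Type} [Field K] [CharZero K] [IsAlgClosed K] [AddCommGroup Y] [Module K Y]
  [FiniteDimensional K Y]

theorem max0 {K Y : Type} [Field K] [AddCommGroup Y] [Module K Y]
    {G : End K Y} (hG : ∀ y, G y = 0 → y = 0) {y : Y}
    (hy : y ∈ G.maxGenEigenspace (0 : K)) : y = 0 := by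
  rw [Module.End.mem_maxGenEigenspace] at hy
  obtain ⟨k, hk⟩ := hy
  rw [zero_smul, sub_zero] at hk
  induction k with
  | zero => simpa using hk
  | succ k ih =>
    rw [pow_succ', Module.End.mul_apply] at hk
    exact ih (hG _ hk)

/-- induction over a stable subspace -/
theorem ind {G : End K Y} {W : Submodule K Y} (hW : ∀ y ∈ W, G y ∈ W) (P : Y → Prop)
    (h0 : P 0) (hadd : ∀ u v, P u → P v → P (u + v))
    (h : ∀ (a : K) (y : Y), y ∈ W → y ∈ G.maxGenEigenspace a → P y) : ∀ y ∈ W, P y := by
  intro y hy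
  have h1 := Submodule.eq_iSup_inf_genEigenspace (f := G) (p := W) ⊤ hW
    (Module.End.iSup_maxGenEigenspace_eq_top G)
  rw [h1] at hy
  refine Submodule.iSup_induction (fun μ : K => W ⊓ G.genEigenspace μ ⊤) (motive := P) hy ?_ h0 hadd
  intro a x hx
  exact h a x hx.1 hx.2

theorem stab {G z : End K Y} {w : Additive Kˣ →+ ℚ} {W : Submodule K Y}
    (hG : ∀ y, G y = 0 → y = 0) (hW : ∀ y ∈ W, G y ∈ W) (hz : IsLog G w z) :
    ∀ y ∈ W, z y ∈ W := by
  refine ind hW (fun y => z y ∈ W) (by simp) (fun u v hu hv => ?_) fun a y hy1 hy2 => ?_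
  · rw [map_add]
    exact W.add_mem hu hv
  · show z y ∈ W
    by_cases ha : a = 0
    · rw [ha] at hy2
      rw [max0 hG hy2, map_zero]
      exact W.zero_mem
    · rw [hz (Units.mk0 a ha) y hy2]
      exact W.smul_mem _ hy1

theorem max_pow {K Y : Type} [Field K] [AddCommGroup Y] [Module K Y] (G : End K Y) (a : K)
    (n : ℕ) {y : Y} (hy : y ∈ G.maxGenEigenspace a) :
    y ∈ (G ^ n).maxGenEigenspace (a ^ n) := by
  rw [Module.End.mem_maxGenEigenspace] at hy ⊢
  obtain ⟨k, hk⟩ := hy
  refine ⟨k, ?_⟩
  have hc : Commute G (a • (1 : End K Y)) := (Commute.one_right G).smul_right a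
  have h1 : G ^ n - a ^ n • (1 : End K Y) =
      (∑ i ∈ Finset.range n, G ^ i * (a • (1 : End K Y)) ^ (n - 1 - i)) *
        (G - a • (1 : End K Y)) := by
    rw [hc.geom_sum₂_mul, smul_pow, one_pow]
  have hc2 : Commute (∑ i ∈ Finset.range n, G ^ i * (a • (1 : End K Y)) ^ (n - 1 - i))
      (G - a • (1 : End K Y)) := by
    refine Commute.sum_left _ _ _ fun i _ => ?_
    have e1 : Commute G (G - a • (1 : End K Y)) := (Commute.refl G).sub_right hc
    have e2 : Commute (a • (1 : End K Y)) (G - a • (1 : End K Y)) :=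
      hc.symm.sub_right (Commute.refl _)
    exact (e1.pow_left i).mul_left (e2.pow_left _)
  rw [h1, hc2.mul_pow, Module.End.mul_apply, hk, map_zero]

theorem scal {G z : End K Y} {w : Additive Kˣ →+ ℚ} (hG : ∀ y, G y = 0 → y = 0)
    (hz : IsLog G w z) (n : ℕ) (c : Kˣ) {y : Y} (hy : y ∈ (G ^ n).maxGenEigenspace (c : K)) :
    (n : K) • z y = ((w (Additive.ofMul c) : ℚ) : K) • y := by
  have hst : ∀ y ∈ (G ^ n).maxGenEigenspace (c : K), G y ∈ (G ^ n).maxGenEigenspace (c : K) := by
    intro y hy
    rw [Module.End.mem_maxGenEigenspace] at hy ⊢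
    obtain ⟨k, hk⟩ := hy
    refine ⟨k, ?_⟩
    have e : Commute ((G ^ n - (c : K) • (1 : End K Y)) ^ k) G := by
      refine Commute.pow_left ?_ k
      exact ((Commute.refl G).pow_left n).sub_left ((Commute.one_left G).smul_left _)
    rw [← Module.End.mul_apply, e.eq, Module.End.mul_apply, hk, map_zero]
  refine ind (G := G) hst (fun y => (n : K) • z y = ((w (Additive.ofMul c) : ℚ) : K) • y)
    (by simp) (fun u v hu hv => ?_) (fun a y hy1 hy2 => ?_) y hy
  · show (n : K) • z (u + v) = _
    rw [map_add, smul_add, smul_add]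
    exact congrArg₂ _ hu hv
  · show (n : K) • z y = _
    by_cases ha : a = 0
    · rw [ha] at hy2
      rw [max0 hG hy2, map_zero, smul_zero, smul_zero]
    · have h1 := max_pow G a n hy2
      by_cases hac : a ^ n = (c : K)
      · have h2 : c = (Units.mk0 a ha) ^ n := by
          ext
          simp [hac]
        rw [hz (Units.mk0 a ha) y hy2, h2, ofMul_pow, map_nsmul, smul_smul, nsmul_eq_mul]
        push_cast
        rfl
      · have h3 := (Module.End.disjoint_genEigenspace (G ^ n) hac ⊤ ⊤)
        have h4 : y = 0 := by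
          have h5 : y ∈ (G ^ n).genEigenspace (a ^ n) ⊤ ⊓ (G ^ n).genEigenspace (c : K) ⊤ :=
            ⟨h1, hy1⟩
          rw [h3.eq_bot] at h5
          exact (Submodule.mem_bot K).1 h5
        rw [h4, map_zero, smul_zero, smul_zero]

theorem comm {G z T : End K Y} {w : Additive Kˣ →+ ℚ} {W : Submodule K Y}
    (hG : ∀ y, G y = 0 → y = 0) (hW : ∀ y ∈ W, G y ∈ W) (hz : IsLog G w z)
    (hT : ∀ y ∈ W, T y ∈ W) (n : ℕ) (hn : 0 < n)
    (hc : ∀ y ∈ W, (G ^ n) (T y) = T ((G ^ n) y)) : ∀ y ∈ W, z (T y) = T (z y) := by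
  have hGn : ∀ m : ℕ, ∀ y ∈ W, (G ^ m) y ∈ W := by
    intro m
    induction m with
    | zero => intro y hy; simpa using hy
    | succ m ih =>
      intro y hy
      rw [pow_succ', Module.End.mul_apply]
      exact hW _ (ih y hy)
  have hGn0 : ∀ m : ℕ, ∀ y, (G ^ m) y = 0 → y = 0 := by
    intro m
    induction m with
    | zero => intro y hy; simpa using hy
    | succ m ih =>
      intro y hy
      rw [pow_succ', Module.End.mul_apply] at hy
      exact ih y (hG _ hy)
  refine ind (G := G ^ n) (hGn n) (fun y => z (T y) = T (z y)) (by simp)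
    (fun u v hu hv => ?_) (fun a y hy1 hy2 => ?_)
  · show z (T (u + v)) = T (z (u + v))
    rw [map_add, map_add, map_add, map_add]
    exact congrArg₂ _ hu hv
  · show z (T y) = T (z y)
    by_cases ha : a = 0
    · rw [ha] at hy2
      rw [max0 (hGn0 n) hy2]
      simp
    · have h1 : T y ∈ (G ^ n).maxGenEigenspace a := by
        rw [Module.End.mem_maxGenEigenspace] at hy2 ⊢
        obtain ⟨k, hk⟩ := hy2
        refine ⟨k, ?_⟩
        have h2 : ∀ k : ℕ, ∀ y ∈ W, ((G ^ n - a • (1 : End K Y)) ^ k) (T y) =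
            T (((G ^ n - a • (1 : End K Y)) ^ k) y) := by
          intro k
          induction k with
          | zero => intro y hy; simp
          | succ k ih =>
            intro y hy
            have e : (G ^ n - a • (1 : End K Y)) (T y) = T ((G ^ n - a • (1 : End K Y)) y) := by
              rw [LinearMap.sub_apply, LinearMap.sub_apply, LinearMap.smul_apply,
                LinearMap.smul_apply, Module.End.one_apply, Module.End.one_apply, hc y hy,
                map_sub, map_smul]
            have e2 : (G ^ n - a • (1 : End K Y)) y ∈ W := by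
              rw [LinearMap.sub_apply, LinearMap.smul_apply, Module.End.one_apply]
              exact W.sub_mem (hGn n y hy) (W.smul_mem _ hy)
            rw [pow_succ, Module.End.mul_apply, Module.End.mul_apply, e, ih _ e2]
        rw [h2 k y hy1, hk, map_zero]
      have h3 := scal hG hz n (Units.mk0 a ha) h1
      have h4 := scal hG hz n (Units.mk0 a ha) (y := y) hy2
      have h5 : (n : K) • z (T y) = (n : K) • T (z y) := by
        rw [h3, ← map_smul, ← map_smul, h4]
      have hn0 : (n : K) ≠ 0 := Nat.cast_ne_zero.2 hn.ne'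
      exact smul_right_injective Y hn0 h5

end

theorem t_logc : S_LOGC := by
  intro K Y _ _ _ _ _ _ G G' z z' w w' W hG hG' hW hW' hz hz'
  refine ⟨stab hG hW hz, ?_⟩
  intro n n' hn hn' hc
  have hGn : ∀ m : ℕ, ∀ y ∈ W, (G' ^ m) y ∈ W := by
    intro m
    induction m with
    | zero => intro y hy; simpa using hy
    | succ m ih =>
      intro y hy
      rw [pow_succ', Module.End.mul_apply]
      exact hW' _ (ih y hy)
  have h1 := comm hG hW hz (hGn n') n hn hc
  have h2 := comm hG' hW' hz' (stab hG hW hz) n' hn' (fun y hy => (h1 y hy).symm)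
  intro y hy
  exact (h2 y hy).symm

end Pool.Agent.Y328.AZ
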